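import Pool.Agent.Q144.TriArea

set_option autoImplicit false

open MeasureTheory Metric Set Filter Topology
open scoped Pointwise

namespace Pool.Agent.Results.MP_49a3fa_co.RightTriangleAboveTwo

/-- The Euclidean plane. -/
abbrev E2 := EuclideanSpace ℝ (Fin 2)

/-- the point with given coordinates -/
noncomputable def pt (x y : ℝ) : E2 := !₂[x, y]

@[simp] lemma pt_zero (x y : ℝ) : pt x y 0 = x := rfl
@[simp] lemma pt_one (x y : ℝ) : pt x y 1 = y := rfl

/-- the pentagon -/
noncomputable def K0 : Set E2 :=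
  convexHull ℝ {pt (-9) 0, pt 9 0, pt 10 15, pt 0 16, pt (-10) 15}

lemma mA : pt (-9) 0 ∈ K0 := subset_convexHull ℝ _ (by simp)
lemma mB : pt 9 0 ∈ K0 := subset_convexHull ℝ _ (by simp)
lemma mC : pt 10 15 ∈ K0 := subset_convexHull ℝ _ (by simp)
lemma mD : pt 0 16 ∈ K0 := subset_convexHull ℝ _ (by simp)
lemma mE : pt (-10) 15 ∈ K0 := subset_convexHull ℝ _ (by simp)

lemma comb {x y x' y' : ℝ} (h : pt x y ∈ K0) (h' : pt x' y' ∈ K0) (t : ℝ) (h0 : 0 ≤ t)
    (h1 : t ≤ 1) (X Y : ℝ) (hX : X = (1 - t) * x + t * x') (hY : Y = (1 - t) * y + t * y') :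
    pt X Y ∈ K0 := by
  have := (convex_convexHull ℝ _) h h' (sub_nonneg.mpr h1) h0 (by ring)
  have e : pt X Y = (1 - t) • pt x y + t • pt x' y' := by
    ext i
    fin_cases i
    · change X = (1 - t) * x + t * x'
      exact hX
    · change Y = (1 - t) * y + t * y'
      exact hY
  rw [e]
  exact this

lemma mF : pt (5/2) (63/4) ∈ K0 := comb mC mD (3/4) (by norm_num) (by norm_num) _ _ (by norm_num) (by norm_num)
lemma mG : pt (-5/2) (63/4) ∈ K0 := comb mD mE (1/4) (by norm_num) (by norm_num) _ _ (by norm_num) (by norm_num)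
lemma mH : pt 0 0 ∈ K0 := comb mA mB (1/2) (by norm_num) (by norm_num) _ _ (by norm_num) (by norm_num)

/-- For the direction `(c, s)` there are three points of the pentagon giving the needed lower
bound for the legs. -/
def Good (c s : ℝ) : Prop :=
  ∃ x y, pt x y ∈ K0 ∧ ∃ x1 y1, pt x1 y1 ∈ K0 ∧ ∃ x2 y2, pt x2 y2 ∈ K0 ∧
    (0 ≤ c * (x - x1) + s * (y - y1) ∧ 0 ≤ -s * (x - x2) + c * (y - y2) ∧
      (295 * (1007 / 1000)) * (c ^ 2 + s ^ 2)
        ≤ (c * (x - x1) + s * (y - y1)) * (-s * (x - x2) + c * (y - y2)))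

lemma cone (g0 g1 h0 h1 x y x1 y1 x2 y2 c s : ℝ)
    (hX : 0 ≤ g0 * s - g1 * c) (hY : 0 ≤ c * h1 - s * h0)
    (hD : 0 < g0 * h1 - g1 * h0)
    (a1 : 0 ≤ g0 * (x - x1) + g1 * (y - y1)) (a2 : 0 ≤ h0 * (x - x1) + h1 * (y - y1))
    (b1 : 0 ≤ -g1 * (x - x2) + g0 * (y - y2)) (b2 : 0 ≤ -h1 * (x - x2) + h0 * (y - y2))
    (q1 : (295 * (1007 / 1000)) * (g0 ^ 2 + g1 ^ 2)
      ≤ (g0 * (x - x1) + g1 * (y - y1)) * (-g1 * (x - x2) + g0 * (y - y2)))
    (q2 : (295 * (1007 / 1000)) * (h0 ^ 2 + h1 ^ 2)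
      ≤ (h0 * (x - x1) + h1 * (y - y1)) * (-h1 * (x - x2) + h0 * (y - y2)))
    (q3 : 2 * (295 * (1007 / 1000)) * (g0 * h0 + g1 * h1)
      ≤ (g0 * (x - x1) + g1 * (y - y1)) * (-h1 * (x - x2) + h0 * (y - y2))
        + (h0 * (x - x1) + h1 * (y - y1)) * (-g1 * (x - x2) + g0 * (y - y2))) :
    0 ≤ c * (x - x1) + s * (y - y1) ∧ 0 ≤ -s * (x - x2) + c * (y - y2) ∧
      (295 * (1007 / 1000)) * (c ^ 2 + s ^ 2)
        ≤ (c * (x - x1) + s * (y - y1)) * (-s * (x - x2) + c * (y - y2)) := by
  set D := g0 * h1 - g1 * h0 with hDd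
  set X := g0 * s - g1 * c with hXd
  set Y := c * h1 - s * h0 with hYd
  have e1 : D * (c * (x - x1) + s * (y - y1))
      = Y * (g0 * (x - x1) + g1 * (y - y1)) + X * (h0 * (x - x1) + h1 * (y - y1)) := by
    rw [hDd, hXd, hYd]; ring
  have e2 : D * (-s * (x - x2) + c * (y - y2))
      = Y * (-g1 * (x - x2) + g0 * (y - y2)) + X * (-h1 * (x - x2) + h0 * (y - y2)) := by
    rw [hDd, hXd, hYd]; ring
  refine ⟨?_, ?_, ?_⟩
  · have : 0 ≤ D * (c * (x - x1) + s * (y - y1)) := by rw [e1]; positivity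
    exact nonneg_of_mul_nonneg_right this hD
  · have : 0 ≤ D * (-s * (x - x2) + c * (y - y2)) := by rw [e2]; positivity
    exact nonneg_of_mul_nonneg_right this hD
  · have e3 : D ^ 2 * ((c * (x - x1) + s * (y - y1)) * (-s * (x - x2) + c * (y - y2))
        - (295 * (1007 / 1000)) * (c ^ 2 + s ^ 2))
        = Y ^ 2 * ((g0 * (x - x1) + g1 * (y - y1)) * (-g1 * (x - x2) + g0 * (y - y2))
            - (295 * (1007 / 1000)) * (g0 ^ 2 + g1 ^ 2))
          + (X * Y) * ((g0 * (x - x1) + g1 * (y - y1)) * (-h1 * (x - x2) + h0 * (y - y2))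
            + (h0 * (x - x1) + h1 * (y - y1)) * (-g1 * (x - x2) + g0 * (y - y2))
            - 2 * (295 * (1007 / 1000)) * (g0 * h0 + g1 * h1))
          + X ^ 2 * ((h0 * (x - x1) + h1 * (y - y1)) * (-h1 * (x - x2) + h0 * (y - y2))
            - (295 * (1007 / 1000)) * (h0 ^ 2 + h1 ^ 2)) := by
      rw [hDd, hXd, hYd]; ring
    have e4 : 0 ≤ D ^ 2 * ((c * (x - x1) + s * (y - y1)) * (-s * (x - x2) + c * (y - y2))
        - (295 * (1007 / 1000)) * (c ^ 2 + s ^ 2)) := by
      rw [e3]
      have p1 := mul_nonneg (sq_nonneg Y) (sub_nonneg.mpr q1)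
      have p2 := mul_nonneg (mul_nonneg hX hY) (sub_nonneg.mpr q3)
      have p3 := mul_nonneg (sq_nonneg X) (sub_nonneg.mpr q2)
      linarith
    have := nonneg_of_mul_nonneg_right e4 (by positivity)
    linarith

lemma quad0 (c s : ℝ) (hc : 0 ≤ c) (hs : 0 ≤ s) : Good c s := by
  rcases le_or_gt 0 (c * 1 - s * 15) with h0 | h0
  · exact ⟨_, _, mC, _, _, mE, _, _, mB, cone 1 0 15 1 10 15 (-10) 15 9 0 c s (by linarith) (by linarith) (by norm_num) (by norm_num) (by norm_num) (by norm_num) (by norm_num) (by norm_num) (by norm_num) (by norm_num)⟩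
  rcases le_or_gt 0 (c * 4 - s * 7) with h1 | h1
  · exact ⟨_, _, mC, _, _, mA, _, _, mB, cone 15 1 7 4 10 15 (-9) 0 9 0 c s (by linarith) (by linarith) (by norm_num) (by norm_num) (by norm_num) (by norm_num) (by norm_num) (by norm_num) (by norm_num) (by norm_num)⟩
  rcases le_or_gt 0 (c * 1 - s * 1) with h2 | h2
  · exact ⟨_, _, mF, _, _, mA, _, _, mB, cone 7 4 1 1 (5/2) (63/4) (-9) 0 9 0 c s (by linarith) (by linarith) (by norm_num) (by norm_num) (by norm_num) (by norm_num) (by norm_num) (by norm_num) (by norm_num) (by norm_num)⟩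
  rcases le_or_gt 0 (c * 7 - s * 4) with h3 | h3
  · exact ⟨_, _, mG, _, _, mA, _, _, mB, cone 1 1 4 7 (-5/2) (63/4) (-9) 0 9 0 c s (by linarith) (by linarith) (by norm_num) (by norm_num) (by norm_num) (by norm_num) (by norm_num) (by norm_num) (by norm_num) (by norm_num)⟩
  rcases le_or_gt 0 (c * 15 - s * 1) with h4 | h4
  · exact ⟨_, _, mE, _, _, mA, _, _, mB, cone 4 7 1 15 (-10) 15 (-9) 0 9 0 c s (by linarith) (by linarith) (by norm_num) (by norm_num) (by norm_num) (by norm_num) (by norm_num) (by norm_num) (by norm_num) (by norm_num)⟩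
  exact ⟨_, _, mE, _, _, mA, _, _, mC, cone 1 15 0 1 (-10) 15 (-9) 0 10 15 c s (by linarith) (by linarith) (by norm_num) (by norm_num) (by norm_num) (by norm_num) (by norm_num) (by norm_num) (by norm_num) (by norm_num)⟩

lemma quad1 (c s : ℝ) (hc : c ≤ 0) (hs : 0 ≤ s) : Good c s := by
  rcases le_or_gt 0 (c * 1 - s * (-1)) with h0 | h0
  · exact ⟨_, _, mE, _, _, mB, _, _, mC, cone 0 1 (-1) 1 (-10) 15 9 0 10 15 c s (by linarith) (by linarith) (by norm_num) (by norm_num) (by norm_num) (by norm_num) (by norm_num) (by norm_num) (by norm_num) (by norm_num)⟩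
  rcases le_or_gt 0 (c * 1 - s * (-3)) with h1 | h1
  · exact ⟨_, _, mA, _, _, mB, _, _, mC, cone (-1) 1 (-3) 1 (-9) 0 9 0 10 15 c s (by linarith) (by linarith) (by norm_num) (by norm_num) (by norm_num) (by norm_num) (by norm_num) (by norm_num) (by norm_num) (by norm_num)⟩
  rcases le_or_gt 0 (c * 1 - s * (-15)) with h2 | h2
  · exact ⟨_, _, mA, _, _, mB, _, _, mD, cone (-3) 1 (-15) 1 (-9) 0 9 0 0 16 c s (by linarith) (by linarith) (by norm_num) (by norm_num) (by norm_num) (by norm_num) (by norm_num) (by norm_num) (by norm_num) (by norm_num)⟩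
  exact ⟨_, _, mA, _, _, mC, _, _, mD, cone (-15) 1 (-1) 0 (-9) 0 10 15 0 16 c s (by linarith) (by linarith) (by norm_num) (by norm_num) (by norm_num) (by norm_num) (by norm_num) (by norm_num) (by norm_num) (by norm_num)⟩

lemma quad2 (c s : ℝ) (hc : c ≤ 0) (hs : s ≤ 0) : Good c s := by
  rcases le_or_gt 0 (c * (-1) - s * (-5)) with h0 | h0
  · exact ⟨_, _, mA, _, _, mC, _, _, mD, cone (-1) 0 (-5) (-1) (-9) 0 10 15 0 16 c s (by linarith) (by linarith) (by norm_num) (by norm_num) (by norm_num) (by norm_num) (by norm_num) (by norm_num) (by norm_num) (by norm_num)⟩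
  rcases le_or_gt 0 (c * (-2) - s * (-3)) with h1 | h1
  · exact ⟨_, _, mA, _, _, mC, _, _, mE, cone (-5) (-1) (-3) (-2) (-9) 0 10 15 (-10) 15 c s (by linarith) (by linarith) (by norm_num) (by norm_num) (by norm_num) (by norm_num) (by norm_num) (by norm_num) (by norm_num) (by norm_num)⟩
  rcases le_or_gt 0 (c * (-3) - s * (-2)) with h2 | h2
  · exact ⟨_, _, mH, _, _, mC, _, _, mE, cone (-3) (-2) (-2) (-3) 0 0 10 15 (-10) 15 c s (by linarith) (by linarith) (by norm_num) (by norm_num) (by norm_num) (by norm_num) (by norm_num) (by norm_num) (by norm_num) (by norm_num)⟩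
  rcases le_or_gt 0 (c * (-5) - s * (-1)) with h3 | h3
  · exact ⟨_, _, mB, _, _, mC, _, _, mE, cone (-2) (-3) (-1) (-5) 9 0 10 15 (-10) 15 c s (by linarith) (by linarith) (by norm_num) (by norm_num) (by norm_num) (by norm_num) (by norm_num) (by norm_num) (by norm_num) (by norm_num)⟩
  exact ⟨_, _, mB, _, _, mD, _, _, mE, cone (-1) (-5) 0 (-1) 9 0 0 16 (-10) 15 c s (by linarith) (by linarith) (by norm_num) (by norm_num) (by norm_num) (by norm_num) (by norm_num) (by norm_num) (by norm_num) (by norm_num)⟩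

lemma quad3 (c s : ℝ) (hc : 0 ≤ c) (hs : s ≤ 0) : Good c s := by
  rcases le_or_gt 0 (c * (-15) - s * 1) with h0 | h0
  · exact ⟨_, _, mB, _, _, mD, _, _, mE, cone 0 (-1) 1 (-15) 9 0 0 16 (-10) 15 c s (by linarith) (by linarith) (by norm_num) (by norm_num) (by norm_num) (by norm_num) (by norm_num) (by norm_num) (by norm_num) (by norm_num)⟩
  rcases le_or_gt 0 (c * (-3) - s * 1) with h1 | h1
  · exact ⟨_, _, mB, _, _, mD, _, _, mA, cone 1 (-15) 1 (-3) 9 0 0 16 (-9) 0 c s (by linarith) (by linarith) (by norm_num) (by norm_num) (by norm_num) (by norm_num) (by norm_num) (by norm_num) (by norm_num) (by norm_num)⟩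
  rcases le_or_gt 0 (c * (-1) - s * 1) with h2 | h2
  · exact ⟨_, _, mB, _, _, mE, _, _, mA, cone 1 (-3) 1 (-1) 9 0 (-10) 15 (-9) 0 c s (by linarith) (by linarith) (by norm_num) (by norm_num) (by norm_num) (by norm_num) (by norm_num) (by norm_num) (by norm_num) (by norm_num)⟩
  exact ⟨_, _, mC, _, _, mE, _, _, mA, cone 1 (-1) 1 0 10 15 (-10) 15 (-9) 0 c s (by linarith) (by linarith) (by norm_num) (by norm_num) (by norm_num) (by norm_num) (by norm_num) (by norm_num) (by norm_num) (by norm_num)⟩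

lemma good (c s : ℝ) : Good c s := by
  rcases le_total 0 c with hc | hc <;> rcases le_total 0 s with hs | hs
  · exact quad0 c s hc hs
  · exact quad3 c s hc hs
  · exact quad1 c s hc hs
  · exact quad2 c s hc hs

/-- The pentagon has area at most 295. -/
lemma vol_K0 : volume K0 ≤ ENNReal.ofReal 295 := by
  set T1 : Set E2 := convexHull ℝ {pt (-9) 0, pt 9 0, pt 10 15} with hT1
  set T2 : Set E2 := convexHull ℝ {pt (-9) 0, pt 10 15, pt (-10) 15} with hT2
  set T3 : Set E2 := convexHull ℝ {pt (-10) 15, pt 10 15, pt 0 16} with hT3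
  set R : Set E2 := {z | 0 ≤ z 1 ∧ 15 * z 0 ≤ 135 + z 1 ∧ -15 * z 0 ≤ 135 + z 1 ∧
    z 0 ≤ 10 * (16 - z 1) ∧ -z 0 ≤ 10 * (16 - z 1)} with hR
  have hRc : Convex ℝ R := by
    intro x hx y hy a b ha hb hab
    obtain ⟨x1, x2, x3, x4, x5⟩ := hx
    obtain ⟨y1, y2, y3, y4, y5⟩ := hy
    have e0 : (a • x + b • y) 0 = a * x 0 + b * y 0 := rfl
    have e1 : (a • x + b • y) 1 = a * x 1 + b * y 1 := rfl
    refine ⟨?_, ?_, ?_, ?_, ?_⟩
    · rw [e1]
      linarith [mul_nonneg ha x1, mul_nonneg hb y1]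
    · rw [e0, e1]
      linarith [mul_nonneg ha (sub_nonneg.mpr x2), mul_nonneg hb (sub_nonneg.mpr y2)]
    · rw [e0, e1]
      linarith [mul_nonneg ha (sub_nonneg.mpr x3), mul_nonneg hb (sub_nonneg.mpr y3)]
    · rw [e0, e1]
      linarith [mul_nonneg ha (sub_nonneg.mpr x4), mul_nonneg hb (sub_nonneg.mpr y4)]
    · rw [e0, e1]
      linarith [mul_nonneg ha (sub_nonneg.mpr x5), mul_nonneg hb (sub_nonneg.mpr y5)]
  have hKR : K0 ⊆ R := by
    refine convexHull_min ?_ hRc
    rintro z hz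
    simp only [mem_insert_iff, mem_singleton_iff] at hz
    rcases hz with rfl | rfl | rfl | rfl | rfl <;>
      refine ⟨?_, ?_, ?_, ?_, ?_⟩ <;> norm_num
  have hcomb : ∀ (a b c z : E2) (r s t : ℝ), 0 ≤ r → 0 ≤ s → 0 ≤ t → r + s + t = 1 →
      z 0 = r * a 0 + s * b 0 + t * c 0 → z 1 = r * a 1 + s * b 1 + t * c 1 →
      z ∈ convexHull ℝ ({a, b, c} : Set E2) := by
    intro a b c z r s t hr hs ht h1 h2 h3
    have e : z = r • a + s • b + t • c := by
      ext i
      fin_cases i
      · exact h2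
      · exact h3
    rw [e]
    exact Q144.three (convex_convexHull ℝ _) (subset_convexHull ℝ _ (by simp))
      (subset_convexHull ℝ _ (by simp)) (subset_convexHull ℝ _ (by simp)) hr hs ht h1
  have hRT : R ⊆ T1 ∪ (T2 ∪ T3) := by
    rintro z ⟨z1, z2, z3, z4, z5⟩
    by_cases h15 : 15 ≤ z 1
    · right; right
      refine hcomb _ _ _ z ((16 - z 1 - z 0 / 10) / 2) ((16 - z 1 + z 0 / 10) / 2) (z 1 - 15)
        (by linarith) (by linarith) (by linarith) (by ring) ?_ ?_
      · simp only [pt_zero]; ring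
      · simp only [pt_one]; ring
    · push Not at h15
      by_cases hd : 19 * z 1 ≤ 15 * (z 0 + 9)
      · left
        -- below the diagonal from (-9,0) to (10,15)
        refine hcomb _ _ _ z (1 - z 1 / 15 - (z 0 + 9 - 19 * z 1 / 15) / 18)
          ((z 0 + 9 - 19 * z 1 / 15) / 18) (z 1 / 15) (by linarith) (by linarith)
          (by linarith) (by ring) ?_ ?_
        · simp only [pt_zero]; ring
        · simp only [pt_one]; ring
      · push Not at hd
        right; left
        refine hcomb _ _ _ z (1 - z 1 / 15) ((z 0 + 9 + z 1 / 15) / 20)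
          (z 1 / 15 - (z 0 + 9 + z 1 / 15) / 20) (by linarith) (by linarith)
          (by linarith) (by ring) ?_ ?_
        · simp only [pt_zero]; ring
        · simp only [pt_one]; ring
  calc volume K0 ≤ volume (T1 ∪ (T2 ∪ T3)) := measure_mono (hKR.trans hRT)
    _ ≤ volume T1 + (volume T2 + volume T3) :=
        (measure_union_le _ _).trans (by gcongr; exact measure_union_le _ _)
    _ ≤ ENNReal.ofReal 135 + (ENNReal.ofReal 150 + ENNReal.ofReal 10) := by
        rw [hT1, hT2, hT3, Q144.vol_tri_eq, Q144.vol_tri_eq, Q144.vol_tri_eq]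
        simp only [pt_zero, pt_one]
        gcongr <;> norm_num
    _ = ENNReal.ofReal 295 := by
        rw [← ENNReal.ofReal_add (by norm_num) (by norm_num),
          ← ENNReal.ofReal_add (by norm_num) (by norm_num)]
        norm_num

/-- Lower bound for right triangles with legs in directions `(c, s)` and `(-s, c)` around a
dilate of the pentagon. -/
lemma legs (r : ℝ) (hr : 0 < r) (A B C : E2) (t : ℝ) (ht : 0 < t)
    (hB0 : B 0 - C 0 = -t * (A 1 - C 1)) (hB1 : B 1 - C 1 = t * (A 0 - C 0))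
    (hAC : A ≠ C) (hK : r • K0 ⊆ convexHull ℝ {A, B, C}) :
    ENNReal.ofReal (2 * r ^ 2 * (295 * (1007 / 1000))) ≤ volume (convexHull ℝ {A, B, C}) := by
  set c := A 0 - C 0 with hc
  set s := A 1 - C 1 with hs
  obtain ⟨x, y, hxy, x1, y1, hxy1, x2, y2, hxy2, ha, hb, hab⟩ := good c s
  have hpos : 0 < c ^ 2 + s ^ 2 := by
    by_contra hcon
    push Not at hcon
    have h1 : c = 0 := (pow_eq_zero_iff two_ne_zero).mp (le_antisymm (by linarith [sq_nonneg s]) (sq_nonneg c))
    have h2 : s = 0 := (pow_eq_zero_iff two_ne_zero).mp (le_antisymm (by linarith [sq_nonneg c]) (sq_nonneg s))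
    apply hAC
    ext i
    fin_cases i
    · change A 0 = C 0
      linarith
    · change A 1 = C 1
      linarith
  -- coordinates in the triangle
  have hmem : ∀ z ∈ convexHull ℝ ({A, B, C} : Set E2), ∃ l m : ℝ, 0 ≤ l ∧ 0 ≤ m ∧ l + m ≤ 1 ∧
      c * (z 0 - C 0) + s * (z 1 - C 1) = l * (c ^ 2 + s ^ 2) ∧
      -s * (z 0 - C 0) + c * (z 1 - C 1) = m * t * (c ^ 2 + s ^ 2) := by
    intro z hz
    have hsub : convexHull ℝ ({A, B, C} : Set E2) ⊆ {z | ∃ l m : ℝ, 0 ≤ l ∧ 0 ≤ m ∧ l + m ≤ 1 ∧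
      c * (z 0 - C 0) + s * (z 1 - C 1) = l * (c ^ 2 + s ^ 2) ∧
      -s * (z 0 - C 0) + c * (z 1 - C 1) = m * t * (c ^ 2 + s ^ 2)} := by
      refine convexHull_min ?_ ?_
      · rintro w hw
        simp only [mem_insert_iff, mem_singleton_iff] at hw
        rcases hw with rfl | rfl | rfl
        · refine ⟨1, 0, by norm_num, by norm_num, by norm_num, ?_, ?_⟩
          · rw [← hc, ← hs]; ring
          · rw [← hc, ← hs]; ring
        · refine ⟨0, 1, by norm_num, by norm_num, by norm_num, ?_, ?_⟩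
          · rw [hB0, hB1]; ring
          · rw [hB0, hB1]; ring
        · exact ⟨0, 0, by norm_num, by norm_num, by norm_num, by ring, by ring⟩
      · intro w hw w' hw' a b ha hb hab
        obtain ⟨l, m, hl, hm, hlm, e1, e2⟩ := hw
        obtain ⟨l', m', hl', hm', hlm', e1', e2'⟩ := hw'
        have f0 : (a • w + b • w') 0 = a * w 0 + b * w' 0 := rfl
        have f1 : (a • w + b • w') 1 = a * w 1 + b * w' 1 := rfl
        have hb' : b = 1 - a := by linarith
        refine ⟨a * l + b * l', a * m + b * m', by positivity, by positivity, ?_, ?_, ?_⟩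
        · linarith [mul_nonneg ha (sub_nonneg.mpr hlm), mul_nonneg hb (sub_nonneg.mpr hlm')]
        · rw [f0, f1]; subst hb'; linear_combination a * e1 + (1 - a) * e1'
        · rw [f0, f1]; subst hb'; linear_combination a * e2 + (1 - a) * e2'
    exact hsub hz
  have hin : ∀ x y, pt x y ∈ K0 → r • pt x y ∈ convexHull ℝ ({A, B, C} : Set E2) :=
    fun x y h => hK (Set.smul_mem_smul_set h)
  obtain ⟨l, m, hl, hm, hlm, e1, e2⟩ := hmem _ (hin x y hxy)
  obtain ⟨l1, m1, hl1, hm1, hlm1, f1, f2⟩ := hmem _ (hin x1 y1 hxy1)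
  obtain ⟨l2, m2, hl2, hm2, hlm2, g1, g2⟩ := hmem _ (hin x2 y2 hxy2)
  have r0 : ∀ x y, (r • pt x y) 0 = r * x := fun x y => rfl
  have r1 : ∀ x y, (r • pt x y) 1 = r * y := fun x y => rfl
  rw [r0, r1] at e1 e2 f1 f2 g1 g2
  set a := c * (x - x1) + s * (y - y1) with had
  set b := -s * (x - x2) + c * (y - y2) with hbd
  set n := c ^ 2 + s ^ 2 with hn
  have ra : r * a ≤ l * n := by
    have : r * a = l * n - l1 * n := by rw [had]; linear_combination e1 - f1
    have := mul_nonneg hl1 hpos.le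
    linarith
  have rb : r * b ≤ m * t * n := by
    have : r * b = m * t * n - m2 * t * n := by rw [hbd]; linear_combination e2 - g2
    have := mul_nonneg (mul_nonneg hm2 ht.le) hpos.le
    linarith
  have h1 : (r * a) * (r * b) ≤ (l * n) * (m * t * n) :=
    mul_le_mul ra rb (mul_nonneg hr.le hb) (mul_nonneg hl hpos.le)
  have h2 : l * m ≤ 1 / 4 := by
    have h := mul_le_mul hlm hlm (add_nonneg hl hm) zero_le_one
    linarith [sq_nonneg (l - m)]
  have h3 : (l * n) * (m * t * n) ≤ (1 / 4) * (t * n ^ 2) := by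
    have : (l * n) * (m * t * n) = (l * m) * (t * n ^ 2) := by ring
    rw [this]
    exact mul_le_mul_of_nonneg_right h2 (by positivity)
  have h4 : r ^ 2 * ((295 * (1007 / 1000)) * n) ≤ (1 / 4) * (t * n ^ 2) := by
    have : (r * a) * (r * b) = r ^ 2 * (a * b) := by ring
    rw [this] at h1
    have := mul_le_mul_of_nonneg_left hab (sq_nonneg r)
    linarith
  have h5 : 2 * r ^ 2 * (295 * (1007 / 1000)) ≤ t * n / 2 := by
    have : (2 * r ^ 2 * (295 * (1007 / 1000))) * n ≤ (t * n / 2) * n := by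
      linarith [h4]
    exact le_of_mul_le_mul_right this hpos
  rw [Q144.vol_tri_eq]
  apply ENNReal.ofReal_le_ofReal
  have h6 : (B 0 - A 0) * (C 1 - A 1) - (B 1 - A 1) * (C 0 - A 0) = t * n := by
    have p1 : B 0 = C 0 + -t * s := by linarith
    have p2 : B 1 = C 1 + t * c := by linarith
    have p3 : A 0 = C 0 + c := by rw [hc]; ring
    have p4 : A 1 = C 1 + s := by rw [hs]; ring
    rw [p1, p2, p3, p4, hn]
    ring
  rw [h6, abs_of_pos (by positivity)]
  exact h5

lemma K0_compact : IsCompact K0 := Set.Finite.isCompact_convexHull ℝ (Set.toFinite _)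

lemma K0_interior : (interior K0).Nonempty := by
  refine (convex_convexHull ℝ _).interior_nonempty_iff_affineSpan_eq_top.mpr ?_
  have h : ({pt (-9) 0, pt 9 0, pt 10 15, pt 0 16, pt (-10) 15} : Set E2) ⊆ K0 :=
    subset_convexHull ℝ _
  rw [eq_top_iff]
  rintro z -
  -- z = combination of the three points (0,0), (9,0), (0,16)
  have a1 : pt 0 0 ∈ affineSpan ℝ K0 := subset_affineSpan ℝ _ mH
  have a2 : pt 9 0 ∈ affineSpan ℝ K0 := subset_affineSpan ℝ _ mB
  have a3 : pt 0 16 ∈ affineSpan ℝ K0 := subset_affineSpan ℝ _ mD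
  have b1 := AffineMap.lineMap_mem (z 0 / 9) a1 a2
  have b2 := AffineMap.lineMap_mem (z 1 / 16) a1 a3
  have v : (z 1 / 16 : ℝ) • (pt 0 16 -ᵥ pt 0 0) ∈ (affineSpan ℝ K0).direction :=
    Submodule.smul_mem _ _ (AffineSubspace.vsub_mem_direction a3 a1)
  have w := AffineSubspace.vadd_mem_of_mem_direction v b1
  have e : (z 1 / 16 : ℝ) • (pt 0 16 -ᵥ pt 0 0) +ᵥ AffineMap.lineMap (pt 0 0) (pt 9 0) (z 0 / 9) = z := by
    rw [AffineMap.lineMap_apply]
    ext i
    fin_cases i
    · simp [pt]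
    · simp [pt]
  rw [e] at w
  exact w

/-- **Q1 has a negative answer.** There is a convex body `K` in the plane of area `1` such that
every right triangle containing `K` has area at least `2.014`. -/
theorem result :
    ∃ K : Set E2, IsCompact K ∧ Convex ℝ K ∧ (interior K).Nonempty ∧ volume K = 1 ∧
      ∀ A B C : E2, AffineIndependent ℝ ![A, B, C] → EuclideanGeometry.angle A C B = Real.pi / 2 →
        K ⊆ convexHull ℝ {A, B, C} →
          ENNReal.ofReal (2014 / 1000) ≤ volume (convexHull ℝ ({A, B, C} : Set E2)) := by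
  have hfin : volume K0 ≠ ⊤ := K0_compact.measure_lt_top.ne
  have hpos : 0 < volume K0 := by
    refine lt_of_lt_of_le ?_ (measure_mono interior_subset)
    exact isOpen_interior.measure_pos volume K0_interior
  set V := (volume K0).toReal with hV
  have hVpos : 0 < V := ENNReal.toReal_pos hpos.ne' hfin
  have hV295 : V ≤ 295 := by
    have := ENNReal.toReal_mono (by simp) vol_K0
    rwa [ENNReal.toReal_ofReal (by norm_num)] at this
  set r := Real.sqrt (1 / V) with hr
  have hr2 : r ^ 2 = 1 / V := Real.sq_sqrt (by positivity)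
  have hrpos : 0 < r := Real.sqrt_pos.mpr (by positivity)
  refine ⟨r • K0, K0_compact.smul r, (convex_convexHull ℝ _).smul r, ?_, ?_, ?_⟩
  · rw [interior_smul₀ hrpos.ne']
    exact K0_interior.smul_set
  · rw [Measure.addHaar_smul]
    have h2 : Module.finrank ℝ E2 = 2 := finrank_euclideanSpace_fin
    rw [h2, abs_of_pos (by positivity), hr2, ← ENNReal.ofReal_toReal hfin, ← hV,
      ← ENNReal.ofReal_mul (by positivity)]
    rw [one_div, inv_mul_cancel₀ hVpos.ne']
    simp
  · intro A B C hind hang hK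
    have hAC : A ≠ C := by
      have := hind.injective.ne (show (0 : Fin 3) ≠ 2 by decide)
      simpa using this
    have hBC : B ≠ C := by
      have := hind.injective.ne (show (1 : Fin 3) ≠ 2 by decide)
      simpa using this
    have hinner : inner ℝ (A -ᵥ C) (B -ᵥ C) = 0 := by
      rw [EuclideanGeometry.angle] at hang
      exact InnerProductGeometry.inner_eq_zero_iff_angle_eq_pi_div_two _ _ |>.mpr hang
    have horth : (A 0 - C 0) * (B 0 - C 0) + (A 1 - C 1) * (B 1 - C 1) = 0 := by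
      rw [PiLp.inner_apply, Fin.sum_univ_two] at hinner
      simp only [vsub_eq_sub, PiLp.sub_apply, RCLike.inner_apply, conj_trivial] at hinner
      linarith
    set c := A 0 - C 0 with hc
    set s := A 1 - C 1 with hs
    have hn : 0 < c ^ 2 + s ^ 2 := by
      by_contra hcon
      push Not at hcon
      have h1 : c = 0 := (pow_eq_zero_iff two_ne_zero).mp (le_antisymm (by linarith [sq_nonneg s]) (sq_nonneg c))
      have h2 : s = 0 := (pow_eq_zero_iff two_ne_zero).mp (le_antisymm (by linarith [sq_nonneg c]) (sq_nonneg s))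
      apply hAC
      ext i
      fin_cases i
      · change A 0 = C 0
        linarith
      · change A 1 = C 1
        linarith
    -- B - C = t J (A - C)
    set t := (-(B 0 - C 0) * s + (B 1 - C 1) * c) / (c ^ 2 + s ^ 2) with ht
    have hB0 : B 0 - C 0 = -t * s := by
      rw [ht]
      field_simp
      linear_combination c * horth
    have hB1 : B 1 - C 1 = t * c := by
      rw [ht]
      field_simp
      linear_combination s * horth
    have htne : t ≠ 0 := by
      intro h0
      rw [h0] at hB0 hB1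
      apply hBC
      ext i
      fin_cases i
      · change B 0 = C 0
        linarith
      · change B 1 = C 1
        linarith
    have hbound : ENNReal.ofReal (2014 / 1000) ≤ ENNReal.ofReal (2 * r ^ 2 * (295 * (1007 / 1000))) := by
      apply ENNReal.ofReal_le_ofReal
      rw [hr2]
      have : 1 / 295 ≤ 1 / V := one_div_le_one_div_of_le hVpos hV295
      linarith
    refine hbound.trans ?_
    rcases lt_or_gt_of_ne htne with h | h
    · -- swap the roles of A and B
      have hset : ({A, B, C} : Set E2) = {B, A, C} := Set.insert_comm A B {C}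
      rw [hset] at hK ⊢
      refine legs r hrpos B A C (-1 / t) (by rw [neg_div, neg_pos]; exact one_div_neg.mpr h) ?_ ?_ hBC hK
      · rw [hB1, ← hc]
        field_simp
      · rw [hB0, ← hs]
        field_simp
    · exact legs r hrpos A B C t h hB0 hB1 hAC hK

end Pool.Agent.Results.MP_49a3fa_co.RightTriangleAboveTwo
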